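import Pool.Agent.P8H18.RR.Stm3

/-!
Project DS, package TH1: the exponential sum over the primes minus the expected density of the
integers prime to `10`, near the fractions with denominators `q | 10`.
-/

set_option autoImplicit false

namespace Pool.Agent.P8H54.DS

open Finset Pool.Agent.P8H18.RR Pool.Agent.P8H18.DS

/-- the weight of `TH` -/
noncomputable def wt (n : ℕ) : ℝ :=
  (if n.Prime then Real.log n else 0) - 5 / 2 * (if n.Coprime 10 then 1 else 0)

theorem TH_eq (x : ℕ) (α : ℝ) :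
    TH x α = ∑ n ∈ Icc 1 x, ((wt n : ℝ) : ℂ) * ee ((n : ℝ) * α) := by
  unfold TH CP wt
  rw [sum_filter, sum_filter, mul_sum, ← sum_sub_distrib]
  refine sum_congr rfl fun n _ => ?_
  split_ifs <;> push_cast <;> ring

theorem ee_add_int (s : ℝ) (k : ℤ) : ee (s + k) = ee s := by
  unfold ee
  have h : (2 * Real.pi * Complex.I * ((s + k : ℝ) : ℂ) : ℂ) =
      2 * Real.pi * Complex.I * s + k * (2 * Real.pi * Complex.I) := by
    push_cast; ring
  rw [h, Complex.exp_add, Complex.exp_int_mul_two_pi_mul_I, mul_one]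

theorem ee_add (s t : ℝ) : ee (s + t) = ee s * ee t := by
  unfold ee
  rw [← Complex.exp_add]
  congr 1
  push_cast; ring

theorem norm_ee (s : ℝ) : ‖ee s‖ = 1 := by
  unfold ee
  have h : (2 * Real.pi * Complex.I * (s : ℂ) : ℂ) = ((2 * Real.pi * s : ℝ) : ℂ) * Complex.I := by
    push_cast; ring
  rw [h, Complex.norm_exp_ofReal_mul_I]

theorem norm_ee_sub_one (s : ℝ) : ‖ee s - 1‖ ≤ 2 * Real.pi * |s| := by
  unfold ee
  have h : (2 * Real.pi * Complex.I * (s : ℂ) : ℂ) = Complex.I * ((2 * Real.pi * s : ℝ) : ℂ) := by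
    push_cast; ring
  rw [h]
  refine (Real.norm_exp_I_mul_ofReal_sub_one_le (x := 2 * Real.pi * s)).trans ?_
  rw [Real.norm_eq_abs, abs_mul, abs_of_pos (by positivity : (0 : ℝ) < 2 * Real.pi)]

/-- the number of the integers in `[1, y]` in a residue class -/
theorem card_res (b y : ℕ) (hb : 1 ≤ b) (hb' : b < 10) :
    ((Icc 1 y).filter (fun n => n % 10 = b)).card = (y + 10 - b) / 10 := by
  rw [card_filter]
  induction y with
  | zero => simp; omega
  | succ y ih =>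
    rw [sum_Icc_succ_top (by omega), ih]
    split_ifs <;> omega

theorem cop_iff (n b : ℕ) (h : n % 10 = b) : n.Coprime 10 ↔ b.Coprime 10 := by
  rw [← h]
  unfold Nat.Coprime
  rw [(Nat.mod_modEq n 10).gcd_eq]

/-- the classes prime to `10` -/
theorem class_cop {b y : ℕ} (hb : b < 10) (hc : b.Coprime 10) :
    |∑ n ∈ (Icc 1 y).filter (fun n => n % 10 = b), wt n| ≤
      |∑ p ∈ (Icc 1 y).filter (fun p => p.Prime ∧ p ≡ b [MOD 10 ^ 1]), Real.log p -
        (y : ℝ) / (Nat.totient (10 ^ 1) : ℝ)| + 5 / 2 := by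
  have hb1 : 1 ≤ b := by
    rcases Nat.eq_zero_or_pos b with h | h
    · subst h; exact absurd hc (by decide)
    · exact h
  have e1 : ∑ n ∈ (Icc 1 y).filter (fun n => n % 10 = b), wt n =
      ∑ p ∈ (Icc 1 y).filter (fun p => p.Prime ∧ p ≡ b [MOD 10 ^ 1]), Real.log p -
        5 / 2 * (((Icc 1 y).filter (fun n => n % 10 = b)).card : ℝ) := by
    have e2 : (Icc 1 y).filter (fun p => p.Prime ∧ p ≡ b [MOD 10 ^ 1]) =
        ((Icc 1 y).filter (fun n => n % 10 = b)).filter Nat.Prime := by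
      ext p
      simp only [mem_filter, Nat.ModEq, pow_one, Nat.mod_eq_of_lt hb]
      tauto
    rw [e2, sum_filter Nat.Prime, card_eq_sum_ones, Nat.cast_sum, mul_sum, ← sum_sub_distrib]
    refine sum_congr rfl fun n hn => ?_
    have h1 : n.Coprime 10 := (cop_iff n b (mem_filter.1 hn).2).2 hc
    unfold wt
    rw [if_pos h1]
    push_cast
    ring
  have ht : (Nat.totient (10 ^ 1) : ℝ) = 4 := by
    have : Nat.totient (10 ^ 1) = 4 := by decide
    rw [this]; norm_num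
  rw [e1, card_res b y hb1 hb, ht]
  have h1 : (((y + 10 - b) / 10 : ℕ) : ℝ) ≤ (y : ℝ) / 10 + 1 := by
    have h2 : ((y + 10 - b) / 10) * 10 ≤ y + 10 := by omega
    have h3 : (((y + 10 - b) / 10 : ℕ) : ℝ) * 10 ≤ y + 10 := by exact_mod_cast h2
    linarith
  have h1' : (y : ℝ) / 10 - 1 ≤ (((y + 10 - b) / 10 : ℕ) : ℝ) := by
    have h2 : y ≤ ((y + 10 - b) / 10) * 10 + 10 := by omega
    have h3 : (y : ℝ) ≤ (((y + 10 - b) / 10 : ℕ) : ℝ) * 10 + 10 := by exact_mod_cast h2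
    linarith
  generalize (((y + 10 - b) / 10 : ℕ) : ℝ) = z at h1 h1' ⊢
  generalize ∑ p ∈ (Icc 1 y).filter (fun p => p.Prime ∧ p ≡ b [MOD 10 ^ 1]), Real.log p = t
  have e3 : t - 5 / 2 * z = (t - (y : ℝ) / 4) + 5 / 2 * ((y : ℝ) / 10 - z) := by ring
  rw [e3]
  refine (abs_add_le _ _).trans (add_le_add le_rfl ?_)
  rw [abs_le]
  constructor <;> linarith

/-- the other classes -/
theorem class_not {b y : ℕ} (hc : ¬ b.Coprime 10) :
    |∑ n ∈ (Icc 1 y).filter (fun n => n % 10 = b), wt n| ≤ 3 := by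
  have e1 : ∑ n ∈ (Icc 1 y).filter (fun n => n % 10 = b), wt n =
      ∑ n ∈ ((Icc 1 y).filter (fun n => n % 10 = b)).filter Nat.Prime, Real.log n := by
    rw [sum_filter Nat.Prime]
    refine sum_congr rfl fun n hn => ?_
    have h1 : ¬ n.Coprime 10 := fun h => hc ((cop_iff n b (mem_filter.1 hn).2).1 h)
    unfold wt
    rw [if_neg h1]
    ring
  have h0 : ∀ n : ℕ, 0 ≤ Real.log n := fun n => Real.log_natCast_nonneg n
  have h2 : ((Icc 1 y).filter (fun n => n % 10 = b)).filter Nat.Prime ⊆ ({2, 5} : Finset ℕ) := by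
    intro n hn
    rw [mem_filter, mem_filter] at hn
    have h1 : ¬ n.Coprime 10 := fun h => hc ((cop_iff n b hn.1.2).1 h)
    have h3 : n ∣ 10 := by
      by_contra h
      exact h1 ((Nat.Prime.coprime_iff_not_dvd hn.2).2 h)
    have h4 : n ≤ 10 := Nat.le_of_dvd (by norm_num) h3
    have h5 := hn.2
    interval_cases n <;> first | decide | (exfalso; revert h5; decide) | (exfalso; revert h3; decide)
  rw [e1, abs_of_nonneg (sum_nonneg fun n _ => h0 n)]
  refine (sum_le_sum_of_subset_of_nonneg h2 fun n _ _ => h0 n).trans ?_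
  rw [sum_pair (by norm_num)]
  have h6 : Real.log ((2 : ℕ) : ℝ) ≤ 1 := by
    have := Real.log_le_sub_one_of_pos (x := ((2 : ℕ) : ℝ)) (by norm_num)
    norm_num at this ⊢
    linarith
  have h7 : Real.log ((5 : ℕ) : ℝ) ≤ 2 := by
    rw [Real.log_le_iff_le_exp (by norm_num)]
    have := Real.exp_one_gt_d9
    have h8 : Real.exp 2 = Real.exp 1 * Real.exp 1 := by rw [← Real.exp_add]; norm_num
    rw [h8]
    push_cast
    nlinarith
  linarith

/-- the partial sums at the fractions with denominators `q | 10` -/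
theorem part_le {M : ℝ} (y q : ℕ) (a : ℤ) (hq : q ∣ 10)
    (h : ∀ b < 10, |∑ n ∈ (Icc 1 y).filter (fun n => n % 10 = b), wt n| ≤ M) :
    ‖∑ n ∈ Icc 1 y, ((wt n : ℝ) : ℂ) * ee ((n : ℝ) * ((a : ℝ) / q))‖ ≤ 10 * M := by
  have hq0 : (q : ℝ) ≠ 0 := by
    intro h0
    have : q = 0 := by exact_mod_cast h0
    subst this
    exact absurd hq (by decide)
  have e0 : ∀ m r : ℕ, ee (((r + m * 10 : ℕ) : ℝ) * ((a : ℝ) / q)) =
      ee ((r : ℝ) * ((a : ℝ) / q)) := by
    intro m r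
    obtain ⟨t, ht⟩ := hq
    have h4 : (10 : ℝ) = q * t := by exact_mod_cast ht
    have h1 : ((r + m * 10 : ℕ) : ℝ) * ((a : ℝ) / q) = (r : ℝ) * ((a : ℝ) / q) +
        (((m : ℤ) * (t : ℤ) * a : ℤ) : ℝ) := by
      push_cast
      rw [h4]
      field_simp
    rw [h1, ee_add_int]
  have e1 : ∀ n : ℕ, ee ((n : ℝ) * ((a : ℝ) / q)) = ee (((n % 10 : ℕ) : ℝ) * ((a : ℝ) / q)) := by
    intro n
    have h := e0 (n / 10) (n % 10)
    rwa [show n % 10 + n / 10 * 10 = n by omega] at h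
  have e2 : ∑ n ∈ Icc 1 y, ((wt n : ℝ) : ℂ) * ee ((n : ℝ) * ((a : ℝ) / q)) =
      ∑ b ∈ range 10, ((∑ n ∈ (Icc 1 y).filter (fun n => n % 10 = b), wt n : ℝ) : ℂ) *
        ee ((b : ℝ) * ((a : ℝ) / q)) := by
    rw [← sum_fiberwise_of_maps_to (s := Icc 1 y) (t := range 10) (g := fun n => n % 10)
      (fun n _ => mem_range.2 (Nat.mod_lt _ (by norm_num)))]
    refine sum_congr rfl fun b _ => ?_
    rw [Complex.ofReal_sum, sum_mul]
    refine sum_congr rfl fun n hn => ?_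
    rw [e1 n, (mem_filter.1 hn).2]
  rw [e2]
  refine (norm_sum_le _ _).trans ?_
  have h3 : ∀ b ∈ range 10, ‖((∑ n ∈ (Icc 1 y).filter (fun n => n % 10 = b), wt n : ℝ) : ℂ) *
        ee ((b : ℝ) * ((a : ℝ) / q))‖ ≤ M := by
    intro b hb
    rw [norm_mul, norm_ee, mul_one, Complex.norm_real, Real.norm_eq_abs]
    exact h b (mem_range.1 hb)
  refine (sum_le_card_nsmul _ _ _ h3).trans ?_
  rw [card_range, nsmul_eq_mul]
  norm_num

/-- partial summation -/
theorem parts (u v : ℕ → ℂ) {M δ : ℝ} (N : ℕ)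
    (hu : ∀ y ≤ N, ‖∑ n ∈ Icc 1 y, u n‖ ≤ M) (hv : ∀ n, ‖v n - v (n + 1)‖ ≤ δ) (x : ℕ) (hx : x ≤ N) :
    ‖∑ n ∈ Icc 1 x, u n * v n - (∑ n ∈ Icc 1 x, u n) * v x‖ ≤ x * (M * δ) := by
  have hM : 0 ≤ M := (norm_nonneg _).trans (hu 0 (Nat.zero_le _))
  induction x with
  | zero => simp
  | succ x ih =>
    rw [sum_Icc_succ_top (by omega), sum_Icc_succ_top (by omega)]
    have e1 : ∑ k ∈ Icc 1 x, u k * v k + u (x + 1) * v (x + 1) -
        (∑ k ∈ Icc 1 x, u k + u (x + 1)) * v (x + 1) =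
        (∑ k ∈ Icc 1 x, u k * v k - (∑ k ∈ Icc 1 x, u k) * v x) +
          (∑ k ∈ Icc 1 x, u k) * (v x - v (x + 1)) := by ring
    rw [e1]
    refine (norm_add_le _ _).trans ?_
    rw [norm_mul]
    have h1 := ih (by omega)
    have h2 : ‖∑ k ∈ Icc 1 x, u k‖ * ‖v x - v (x + 1)‖ ≤ M * δ :=
      mul_le_mul (hu x (by omega)) (hv x) (norm_nonneg _) hM
    push_cast
    linarith

theorem wt_abs_le {n N : ℕ} (h1 : 1 ≤ n) (h : n ≤ N) : |wt n| ≤ Real.log N + 5 / 2 := by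
  unfold wt
  have h0 : 0 ≤ Real.log n := Real.log_natCast_nonneg n
  have h2 : Real.log n ≤ Real.log N :=
    Real.log_le_log (by exact_mod_cast h1) (by exact_mod_cast h)
  rw [abs_le]
  constructor <;> split_ifs <;> linarith

theorem th1 : S_TH1A := by
  rintro ⟨c0, C0, hc0, hC0, H⟩
  set c1 : ℝ := min c0 1 with hc1
  have hc1p : 0 < c1 := lt_min hc0 one_pos
  have hc10 : c1 ≤ c0 := min_le_left _ _
  have hc11 : c1 ≤ 1 := min_le_right _ _
  set C1 : ℝ := 10 * (C0 + 3) + 10 * (3 * (18 / c0 ^ 2 + 1) + 5 / 2) with hC1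
  have hC1a : 10 * (C0 + 3) ≤ C1 := by
    rw [hC1]
    have : 0 ≤ 10 * (3 * (18 / c0 ^ 2 + 1) + 5 / 2) := by positivity
    linarith
  have hC1b : 10 * (3 * (18 / c0 ^ 2 + 1) + 5 / 2) ≤ C1 := by
    rw [hC1]
    have : 0 ≤ 10 * (C0 + 3) := by positivity
    linarith
  have hC1p : 0 < C1 := lt_of_lt_of_le (by positivity) hC1a
  refine ⟨c1 / 2, 8 * C1, by positivity, by positivity, ?_⟩
  intro L hL q a hq hq10 β hβ x hx
  have hLr : (1 : ℝ) ≤ L := by exact_mod_cast hL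
  have hs1 : (1 : ℝ) ≤ √(L : ℝ) := by
    rw [Real.le_sqrt' one_pos]; simpa using hLr
  have hs2 : √(L : ℝ) ≤ L := by
    rw [Real.sqrt_le_left (by positivity)]
    nlinarith
  have hss : √(L : ℝ) * √(L : ℝ) = L := Real.mul_self_sqrt (by positivity)
  have hlog10 : Real.log 10 ≤ 3 := by
    rw [Real.log_le_iff_le_exp (by norm_num)]
    have h := Real.exp_one_gt_d9
    have h8 : Real.exp 3 = Real.exp 1 * Real.exp 1 * Real.exp 1 := by
      rw [← Real.exp_add, ← Real.exp_add]; norm_num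
    rw [h8]
    have h9 : (7 : ℝ) ≤ Real.exp 1 * Real.exp 1 := by nlinarith
    nlinarith
  set N : ℕ := 10 ^ (2 * L + 1) with hN
  have hNr : (N : ℝ) = 10 ^ (2 * L + 1) := by rw [hN]; push_cast; rfl
  have hN0 : (0 : ℝ) < N := by rw [hNr]; positivity
  -- the partial sums
  have key : ∀ y ≤ N, ‖∑ n ∈ Icc 1 y, ((wt n : ℝ) : ℂ) * ee ((n : ℝ) * ((a : ℝ) / q))‖ ≤
      C1 * N * Real.exp (-(c1 * √(L : ℝ))) := by
    intro y hy
    by_cases hbig : (10 : ℝ) ≤ Real.exp (c0 * √(L : ℝ))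
    · have hcl : ∀ b < 10, |∑ n ∈ (Icc 1 y).filter (fun n => n % 10 = b), wt n| ≤
          (C0 + 3) * (N * Real.exp (-(c1 * √(L : ℝ)))) := by
        have h3 : (1 : ℝ) ≤ N * Real.exp (-(c1 * √(L : ℝ))) := by
          rw [Real.exp_neg, ← div_eq_mul_inv, one_le_div (Real.exp_pos _), hNr]
          have h4 : c1 * √(L : ℝ) ≤ L := by nlinarith
          have h5 : Real.exp (L : ℝ) ≤ 10 ^ L := by
            have h6 : Real.exp (L : ℝ) = Real.exp 1 ^ L := by
              rw [← Real.exp_nat_mul]; simp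
            rw [h6]
            exact pow_le_pow_left₀ (Real.exp_pos _).le (by linarith [Real.exp_one_lt_d9]) _
          calc Real.exp (c1 * √(L : ℝ)) ≤ Real.exp L := Real.exp_le_exp.2 h4
            _ ≤ 10 ^ L := h5
            _ ≤ 10 ^ (2 * L + 1) := pow_le_pow_right₀ (by norm_num) (by omega)
        intro b hb
        by_cases hc : b.Coprime 10
        · have h5 := class_cop (y := y) hb hc
          have h6 := H L 1 b y hL le_rfl (by
            rw [← Real.sqrt_eq_rpow]; simpa using hbig) hc hy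
          rw [← Real.sqrt_eq_rpow, ← hNr] at h6
          have h7 : Real.exp (-(c0 * √(L : ℝ))) ≤ Real.exp (-(c1 * √(L : ℝ))) := by
            apply Real.exp_le_exp.2
            nlinarith
          have h8 : C0 * N * Real.exp (-(c0 * √(L : ℝ))) ≤
              C0 * (N * Real.exp (-(c1 * √(L : ℝ)))) := by
            rw [mul_assoc]
            gcongr
          nlinarith
        · have h5 := class_not (y := y) hc
          nlinarith
      refine (part_le y q a hq10 hcl).trans ?_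
      have h9 : 0 ≤ N * Real.exp (-(c1 * √(L : ℝ))) := by positivity
      calc 10 * ((C0 + 3) * (N * Real.exp (-(c1 * √(L : ℝ))))) =
          (10 * (C0 + 3)) * (N * Real.exp (-(c1 * √(L : ℝ)))) := by ring
        _ ≤ C1 * (N * Real.exp (-(c1 * √(L : ℝ)))) := mul_le_mul_of_nonneg_right hC1a h9
        _ = _ := by ring
    · push Not at hbig
      have h1 : c0 * √(L : ℝ) < Real.log 10 := by
        rw [Real.lt_log_iff_exp_lt (by norm_num)]; exact hbig
      have h2 : √(L : ℝ) ≤ 3 / c0 := by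
        rw [le_div_iff₀ hc0]; linarith
      have h3 : (L : ℝ) ≤ 9 / c0 ^ 2 := by
        have h4 : √(L : ℝ) * √(L : ℝ) ≤ 3 / c0 * (3 / c0) :=
          mul_le_mul h2 h2 (Real.sqrt_nonneg _) (by positivity)
        rw [hss] at h4
        calc (L : ℝ) ≤ 3 / c0 * (3 / c0) := h4
          _ = 9 / c0 ^ 2 := by field_simp; norm_num
      have h5 : 1 / 10 ≤ Real.exp (-(c1 * √(L : ℝ))) := by
        have h6 : Real.exp (c1 * √(L : ℝ)) ≤ 10 := by
          refine (Real.exp_le_exp.2 ?_).trans hbig.le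
          nlinarith
        rw [Real.exp_neg, one_div]
        exact inv_anti₀ (Real.exp_pos _) h6
      have h7 : Real.log N ≤ 3 * (18 / c0 ^ 2 + 1) := by
        rw [hNr, Real.log_pow]
        push_cast
        have h8 : 2 * (L : ℝ) + 1 ≤ 18 / c0 ^ 2 + 1 := by
          have : (18 : ℝ) / c0 ^ 2 = 2 * (9 / c0 ^ 2) := by ring
          rw [this]; linarith
        have h9 : 0 ≤ Real.log 10 := Real.log_nonneg (by norm_num)
        calc (2 * (L : ℝ) + 1) * Real.log 10 ≤ (18 / c0 ^ 2 + 1) * 3 :=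
              mul_le_mul h8 hlog10 h9 (by positivity)
          _ = _ := by ring
      refine (norm_sum_le _ _).trans ?_
      have h10 : ∀ n ∈ Icc 1 y, ‖((wt n : ℝ) : ℂ) * ee ((n : ℝ) * ((a : ℝ) / q))‖ ≤
          Real.log N + 5 / 2 := by
        intro n hn
        rw [norm_mul, norm_ee, mul_one, Complex.norm_real, Real.norm_eq_abs]
        exact wt_abs_le (mem_Icc.1 hn).1 ((mem_Icc.1 hn).2.trans hy)
      refine (sum_le_card_nsmul _ _ _ h10).trans ?_
      rw [Nat.card_Icc, nsmul_eq_mul, Nat.add_sub_cancel]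
      have h11 : 0 ≤ Real.log (N : ℝ) := Real.log_natCast_nonneg N
      have h12 : (y : ℝ) ≤ N := by exact_mod_cast hy
      calc (y : ℝ) * (Real.log N + 5 / 2) ≤ N * (3 * (18 / c0 ^ 2 + 1) + 5 / 2) :=
            mul_le_mul h12 (by linarith) (by linarith) hN0.le
        _ = (10 * (3 * (18 / c0 ^ 2 + 1) + 5 / 2)) * N * (1 / 10) := by ring
        _ ≤ C1 * N * Real.exp (-(c1 * √(L : ℝ))) := by gcongr
  -- partial summation
  rw [TH_eq]
  have e1 : ∑ n ∈ Icc 1 x, ((wt n : ℝ) : ℂ) * ee ((n : ℝ) * ((a : ℝ) / q + β)) =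
      ∑ n ∈ Icc 1 x, (((wt n : ℝ) : ℂ) * ee ((n : ℝ) * ((a : ℝ) / q))) * ee ((n : ℝ) * β) := by
    refine sum_congr rfl fun n _ => ?_
    rw [mul_add, ee_add, mul_assoc]
  rw [e1]
  have hv : ∀ n : ℕ, ‖ee ((n : ℝ) * β) - ee (((n + 1 : ℕ) : ℝ) * β)‖ ≤ 2 * Real.pi * |β| := by
    intro n
    have h1 : ee (((n + 1 : ℕ) : ℝ) * β) = ee ((n : ℝ) * β) * ee β := by
      rw [← ee_add]; congr 1; push_cast; ring
    rw [h1]
    have h2 : ee ((n : ℝ) * β) - ee ((n : ℝ) * β) * ee β = -(ee ((n : ℝ) * β) * (ee β - 1)) := by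
      ring
    rw [h2, norm_neg, norm_mul, norm_ee, one_mul]
    exact norm_ee_sub_one β
  have h1 := parts (fun n => ((wt n : ℝ) : ℂ) * ee ((n : ℝ) * ((a : ℝ) / q)))
    (fun n => ee ((n : ℝ) * β)) (δ := 2 * Real.pi * |β|) N key hv x hx
  have h2 : ‖(∑ n ∈ Icc 1 x, ((wt n : ℝ) : ℂ) * ee ((n : ℝ) * ((a : ℝ) / q))) * ee ((x : ℝ) * β)‖ ≤
      C1 * N * Real.exp (-(c1 * √(L : ℝ))) := by
    rw [norm_mul, norm_ee, mul_one]; exact key x hx
  have h3 : ‖∑ n ∈ Icc 1 x, (((wt n : ℝ) : ℂ) * ee ((n : ℝ) * ((a : ℝ) / q))) * ee ((n : ℝ) * β)‖ ≤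
      C1 * N * Real.exp (-(c1 * √(L : ℝ))) * (1 + x * (2 * Real.pi * |β|)) := by
    have h4 := norm_sub_norm_le
      (∑ n ∈ Icc 1 x, (((wt n : ℝ) : ℂ) * ee ((n : ℝ) * ((a : ℝ) / q))) * ee ((n : ℝ) * β))
      ((∑ n ∈ Icc 1 x, ((wt n : ℝ) : ℂ) * ee ((n : ℝ) * ((a : ℝ) / q))) * ee ((x : ℝ) * β))
    linarith
  refine h3.trans ?_
  have hx' : (x : ℝ) ≤ N := by exact_mod_cast hx
  have h5 : (x : ℝ) * |β| ≤ Real.exp (c1 / 2 * √(L : ℝ)) := by
    calc (x : ℝ) * |β| ≤ N * (Real.exp (c1 / 2 * √(L : ℝ)) / 10 ^ (2 * L + 1)) :=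
          mul_le_mul hx' hβ (abs_nonneg _) hN0.le
      _ = _ := by rw [← hNr]; field_simp
  have h6 : (1 : ℝ) ≤ Real.exp (c1 / 2 * √(L : ℝ)) := Real.one_le_exp (by positivity)
  have h7 : 1 + x * (2 * Real.pi * |β|) ≤ 8 * Real.exp (c1 / 2 * √(L : ℝ)) := by
    have h8 : 2 * Real.pi ≤ 7 := by linarith [Real.pi_lt_d2]
    have h9 : (x : ℝ) * (2 * Real.pi * |β|) = 2 * Real.pi * (x * |β|) := by ring
    rw [h9]
    have h10 : 2 * Real.pi * (x * |β|) ≤ 7 * Real.exp (c1 / 2 * √(L : ℝ)) :=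
      mul_le_mul h8 h5 (by positivity) (by norm_num)
    linarith
  calc C1 * N * Real.exp (-(c1 * √(L : ℝ))) * (1 + x * (2 * Real.pi * |β|)) ≤
      C1 * N * Real.exp (-(c1 * √(L : ℝ))) * (8 * Real.exp (c1 / 2 * √(L : ℝ))) := by gcongr
    _ = 8 * C1 * N * (Real.exp (-(c1 * √(L : ℝ))) * Real.exp (c1 / 2 * √(L : ℝ))) := by ring
    _ = 8 * C1 * 10 ^ (2 * L + 1) * Real.exp (-(c1 / 2 * √(L : ℝ))) := by
      rw [← Real.exp_add, hNr]
      congr 2
      ring

end Pool.Agent.P8H54.DS
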